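import Pool.Agent.H497.Geom

open Set Filter Topology

namespace Pool.Agent.H497.Plane

noncomputable def Yv (a b : E3) (θ : ℝ) : E3 := Real.cos θ • a + Real.sin θ • b
noncomputable def Vv (a b : E3) (θ : ℝ) : E3 := (-Real.sin θ) • a + Real.cos θ • b
noncomputable def Xv (e a b : E3) (p : ℝ × ℝ) : E3 := p.1 • e + Yv a b p.2

lemma ortho3 {u w v : E3} (h1 : inner ℝ u u = (1:ℝ)) (h2 : inner ℝ w w = (1:ℝ))
    (h3 : inner ℝ v v = (1:ℝ)) (h4 : inner ℝ u w = (0:ℝ)) (h5 : inner ℝ u v = (0:ℝ))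
    (h6 : inner ℝ w v = (0:ℝ)) : Orthonormal ℝ ![u, w, v] := by
  rw [orthonormal_iff_ite]
  intro i j
  have h4' : inner ℝ w u = (0:ℝ) := by rw [real_inner_comm]; exact h4
  have h5' : inner ℝ v u = (0:ℝ) := by rw [real_inner_comm]; exact h5
  have h6' : inner ℝ v w = (0:ℝ) := by rw [real_inner_comm]; exact h6
  fin_cases i <;> fin_cases j
  · simpa using h1
  · simpa using h4
  · simpa using h5
  · simpa using h4'
  · simpa using h2
  · simpa using h6
  · simpa using h5'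
  · simpa using h6'
  · simpa using h3

structure ON (e a b : E3) : Prop where
  ee : inner ℝ e e = (1:ℝ)
  aa : inner ℝ a a = (1:ℝ)
  bb : inner ℝ b b = (1:ℝ)
  ea : inner ℝ e a = (0:ℝ)
  eb : inner ℝ e b = (0:ℝ)
  ab : inner ℝ a b = (0:ℝ)

namespace ON
variable {e a b : E3} (h : ON e a b)
include h
lemma ae : inner ℝ a e = (0:ℝ) := by rw [real_inner_comm]; exact h.ea
lemma be : inner ℝ b e = (0:ℝ) := by rw [real_inner_comm]; exact h.eb
lemma ba : inner ℝ b a = (0:ℝ) := by rw [real_inner_comm]; exact h.ab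
end ON

lemma YY {e a b : E3} (h : ON e a b) (θ : ℝ) : inner ℝ (Yv a b θ) (Yv a b θ) = (1:ℝ) := by
  unfold Yv
  simp only [inner_add_left, inner_add_right, inner_smul_left, inner_smul_right, h.aa, h.ab, h.ba,
    h.bb]
  simp
  nlinarith [Real.sin_sq_add_cos_sq θ]

lemma VV {e a b : E3} (h : ON e a b) (θ : ℝ) : inner ℝ (Vv a b θ) (Vv a b θ) = (1:ℝ) := by
  unfold Vv
  simp only [inner_add_left, inner_add_right, inner_smul_left, inner_smul_right, h.aa, h.ab, h.ba,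
    h.bb]
  simp
  nlinarith [Real.sin_sq_add_cos_sq θ]

lemma YV {e a b : E3} (h : ON e a b) (θ : ℝ) : inner ℝ (Yv a b θ) (Vv a b θ) = (0:ℝ) := by
  unfold Vv Yv
  simp only [inner_add_left, inner_add_right, inner_smul_left, inner_smul_right, h.aa, h.ab, h.ba,
    h.bb]
  simp
  ring

lemma eY {e a b : E3} (h : ON e a b) (θ : ℝ) : inner ℝ e (Yv a b θ) = (0:ℝ) := by
  unfold Yv
  simp only [inner_add_right, inner_smul_right, h.ea, h.eb]
  simp

lemma Ye {e a b : E3} (h : ON e a b) (θ : ℝ) : inner ℝ (Yv a b θ) e = (0:ℝ) := by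
  rw [real_inner_comm]; exact eY h θ

lemma eV {e a b : E3} (h : ON e a b) (θ : ℝ) : inner ℝ e (Vv a b θ) = (0:ℝ) := by
  unfold Vv
  simp only [inner_add_right, inner_smul_right, h.ea, h.eb]
  simp

lemma XX {e a b : E3} (h : ON e a b) (p : ℝ × ℝ) :
    inner ℝ (Xv e a b p) (Xv e a b p) = (1 + p.1 ^ 2 : ℝ) := by
  unfold Xv
  simp only [inner_add_left, inner_add_right, inner_smul_left, inner_smul_right, h.ee, YY h,
    eY h, Ye h]
  simp
  ring

lemma X_ne {e a b : E3} (h : ON e a b) (p : ℝ × ℝ) : Xv e a b p ≠ 0 := by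
  intro h0
  have h1 := XX h p
  rw [h0] at h1
  simp at h1
  nlinarith [sq_nonneg p.1]

lemma hasFDerivAt_Y (a b : E3) (p : ℝ × ℝ) : HasFDerivAt (fun p : ℝ × ℝ => Yv a b p.2)
    ((ContinuousLinearMap.snd ℝ ℝ ℝ).smulRight (Vv a b p.2)) p := by
  have h1 : HasFDerivAt (fun p : ℝ × ℝ => Real.cos p.2)
      ((-Real.sin p.2) • ContinuousLinearMap.snd ℝ ℝ ℝ) p := hasFDerivAt_snd.cos
  have h2 : HasFDerivAt (fun p : ℝ × ℝ => Real.sin p.2)
      ((Real.cos p.2) • ContinuousLinearMap.snd ℝ ℝ ℝ) p := hasFDerivAt_snd.sin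
  have h3 := (h1.smul_const a).add (h2.smul_const b)
  have e : ((-Real.sin p.2) • ContinuousLinearMap.snd ℝ ℝ ℝ).smulRight a +
      ((Real.cos p.2) • ContinuousLinearMap.snd ℝ ℝ ℝ).smulRight b =
      (ContinuousLinearMap.snd ℝ ℝ ℝ).smulRight (Vv a b p.2) := by
    apply ContinuousLinearMap.ext
    intro d
    simp [Vv, smul_smul, mul_comm]
  rw [e] at h3
  exact h3

lemma hasFDerivAt_V (a b : E3) (p : ℝ × ℝ) : HasFDerivAt (fun p : ℝ × ℝ => Vv a b p.2)
    ((ContinuousLinearMap.snd ℝ ℝ ℝ).smulRight (-Yv a b p.2)) p := by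
  have h1 : HasFDerivAt (fun p : ℝ × ℝ => -Real.sin p.2)
      (-((Real.cos p.2) • ContinuousLinearMap.snd ℝ ℝ ℝ)) p := hasFDerivAt_snd.sin.neg
  have h2 : HasFDerivAt (fun p : ℝ × ℝ => Real.cos p.2)
      ((-Real.sin p.2) • ContinuousLinearMap.snd ℝ ℝ ℝ) p := hasFDerivAt_snd.cos
  have h3 := (h1.smul_const a).add (h2.smul_const b)
  have e : (-((Real.cos p.2) • ContinuousLinearMap.snd ℝ ℝ ℝ)).smulRight a +
      ((-Real.sin p.2) • ContinuousLinearMap.snd ℝ ℝ ℝ).smulRight b =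
      (ContinuousLinearMap.snd ℝ ℝ ℝ).smulRight (-Yv a b p.2) := by
    apply ContinuousLinearMap.ext
    intro d
    simp [Yv, smul_smul, mul_comm]
    abel
  rw [e] at h3
  exact h3

lemma hasFDerivAt_X (e a b : E3) (p : ℝ × ℝ) : HasFDerivAt (Xv e a b)
    ((ContinuousLinearMap.fst ℝ ℝ ℝ).smulRight e +
      (ContinuousLinearMap.snd ℝ ℝ ℝ).smulRight (Vv a b p.2)) p :=
  (hasFDerivAt_fst.smul_const e).add (hasFDerivAt_Y a b p)

lemma contDiff_X (e a b : E3) {n : WithTop ℕ∞} : ContDiff ℝ n (Xv e a b) := by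
  unfold Xv Yv
  have h1 : ContDiff ℝ n (fun p : ℝ × ℝ => Real.cos p.2) := Real.contDiff_cos.comp contDiff_snd
  have h2 : ContDiff ℝ n (fun p : ℝ × ℝ => Real.sin p.2) := Real.contDiff_sin.comp contDiff_snd
  exact (contDiff_fst.smul contDiff_const).add
    ((h1.smul contDiff_const).add (h2.smul contDiff_const))

section chart
variable {g : E3 → ℝ} {e a b : E3}

lemma contDiff_chart (hs : ∀ x, x ≠ 0 → ContDiffAt ℝ 3 g x) (ho : ON e a b) :
    ContDiff ℝ 3 (fun p => g (Xv e a b p)) := by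
  rw [contDiff_iff_contDiffAt]
  intro p
  exact (hs _ (X_ne ho p)).comp p (contDiff_X e a b).contDiffAt

lemma pt_chart (hs : ∀ x, x ≠ 0 → ContDiffAt ℝ 3 g x) (ho : ON e a b) (p : ℝ × ℝ) :
    pt (fun p => g (Xv e a b p)) p = fderiv ℝ g (Xv e a b p) e := by
  unfold pt
  have h := ((diffAt hs (X_ne ho p)).hasFDerivAt.comp p (hasFDerivAt_X e a b p)).fderiv
  have h2 : (fun p => g (Xv e a b p)) = g ∘ Xv e a b := rfl
  rw [h2, h]
  simp

lemma ph_chart (hs : ∀ x, x ≠ 0 → ContDiffAt ℝ 3 g x) (ho : ON e a b) (p : ℝ × ℝ) :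
    ph (fun p => g (Xv e a b p)) p = fderiv ℝ g (Xv e a b p) (Vv a b p.2) := by
  unfold ph
  have h := ((diffAt hs (X_ne ho p)).hasFDerivAt.comp p (hasFDerivAt_X e a b p)).fderiv
  have h2 : (fun p => g (Xv e a b p)) = g ∘ Xv e a b := rfl
  rw [h2, h]
  simp

lemma hasFDerivAt_DX (hs : ∀ x, x ≠ 0 → ContDiffAt ℝ 3 g x) (ho : ON e a b) (p : ℝ × ℝ) :
    HasFDerivAt (fun p => fderiv ℝ g (Xv e a b p))
      ((fderiv ℝ (fderiv ℝ g) (Xv e a b p)).comp ((ContinuousLinearMap.fst ℝ ℝ ℝ).smulRight e +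
      (ContinuousLinearMap.snd ℝ ℝ ℝ).smulRight (Vv a b p.2))) p :=
  (diffAt_fderiv hs (X_ne ho p)).hasFDerivAt.comp p (hasFDerivAt_X e a b p)

lemma Pn_chart (hs : ∀ x, x ≠ 0 → ContDiffAt ℝ 3 g x) (ho : ON e a b) (p : ℝ × ℝ) :
    Pn (fun p => g (Xv e a b p)) p = fderiv ℝ (fderiv ℝ g) (Xv e a b p) e e := by
  unfold Pn
  have h0 : pt (fun p => g (Xv e a b p)) = fun p => fderiv ℝ g (Xv e a b p) e :=
    funext (pt_chart hs ho)
  rw [h0]
  unfold pt
  have h1 := ((hasFDerivAt_DX hs ho p).clm_apply (hasFDerivAt_const e p)).fderiv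
  rw [h1]
  simp

lemma Qn_chart (hs : ∀ x, x ≠ 0 → ContDiffAt ℝ 3 g x) (ho : ON e a b) (p : ℝ × ℝ) :
    Qn (fun p => g (Xv e a b p)) p = fderiv ℝ (fderiv ℝ g) (Xv e a b p) e (Vv a b p.2) := by
  unfold Qn
  have h0 : pt (fun p => g (Xv e a b p)) = fun p => fderiv ℝ g (Xv e a b p) e :=
    funext (pt_chart hs ho)
  rw [h0]
  unfold ph
  have h1 := ((hasFDerivAt_DX hs ho p).clm_apply (hasFDerivAt_const e p)).fderiv
  rw [h1, symmE hs (X_ne ho p)]
  simp

lemma Sn_chart (hs : ∀ x, x ≠ 0 → ContDiffAt ℝ 3 g x)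
    (hh : ∀ t : ℝ, 0 < t → ∀ x, g (t • x) = t * g x) (ho : ON e a b) (p : ℝ × ℝ) :
    Sn (fun p => g (Xv e a b p)) p =
      fderiv ℝ (fderiv ℝ g) (Xv e a b p) (Vv a b p.2) (Vv a b p.2) := by
  unfold Sn
  have h0 : ph (fun p => g (Xv e a b p)) = fun p => fderiv ℝ g (Xv e a b p) (Vv a b p.2) :=
    funext (ph_chart hs ho)
  have h2 : ph (ph (fun p => g (Xv e a b p))) p =
      fderiv ℝ (fderiv ℝ g) (Xv e a b p) (Vv a b p.2) (Vv a b p.2) -
        fderiv ℝ g (Xv e a b p) (Yv a b p.2) := by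
    rw [h0]
    unfold ph
    have h1 := ((hasFDerivAt_DX hs ho p).clm_apply (hasFDerivAt_V a b p)).fderiv
    rw [h1]
    simp
    ring
  have h3 := euler hs hh (X_ne ho p)
  have h4 : fderiv ℝ g (Xv e a b p) (Xv e a b p) = p.1 * fderiv ℝ g (Xv e a b p) e +
      fderiv ℝ g (Xv e a b p) (Yv a b p.2) := by
    conv_lhs => arg 2; unfold Xv
    simp
  rw [h2, pt_chart hs ho]
  linarith

lemma dn_chart (hs : ∀ x, x ≠ 0 → ContDiffAt ℝ 3 g x)
    (hh : ∀ t : ℝ, 0 < t → ∀ x, g (t • x) = t * g x) (ho : ON e a b) (p : ℝ × ℝ) :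
    rad g ((Real.sqrt (1 + p.1 ^ 2))⁻¹ • Xv e a b p) =
      (1 + p.1 ^ 2) ^ 2 * dn (fun p => g (Xv e a b p)) p := by
  set r := Real.sqrt (1 + p.1 ^ 2) with hr
  have hr2 : r ^ 2 = 1 + p.1 ^ 2 := Real.sq_sqrt (by positivity)
  have hrpos : 0 < r := Real.sqrt_pos.2 (by positivity)
  set X := Xv e a b p with hX
  set Y := Yv a b p.2 with hY
  set V := Vv a b p.2 with hV
  set D := fderiv ℝ (fderiv ℝ g) X with hD
  have hX0 : X ≠ 0 := X_ne ho p
  have hXe : X = p.1 • e + Y := rfl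
  set w : E3 := r⁻¹ • (e - p.1 • Y) with hw
  have rr : r⁻¹ * (r⁻¹ * (1 + p.1 ^ 2)) = 1 := by
    rw [← hr2]; field_simp
  have ho3 : Orthonormal ℝ ![r⁻¹ • X, w, V] := by
    apply ortho3
    · rw [inner_smul_left, inner_smul_right, XX ho p]
      simpa using rr
    · rw [hw, inner_smul_left, inner_smul_right]
      simp only [inner_sub_left, inner_sub_right, inner_smul_left, inner_smul_right, ho.ee,
        hY, YY ho, eY ho, Ye ho]
      simp
      have : (1 + p.1 * p.1) = 1 + p.1 ^ 2 := by ring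
      rw [this]
      exact rr
    · exact VV ho p.2
    · rw [hw, hXe, inner_smul_left, inner_smul_right]
      simp only [inner_sub_right, inner_add_left, inner_smul_left, inner_smul_right, ho.ee,
        hY, YY ho, eY ho, Ye ho]
      simp
    · rw [hXe, inner_smul_left]
      simp only [inner_add_left, inner_smul_left, hY, hV, YV ho, eV ho]
      simp
    · rw [hw, inner_smul_left]
      simp only [inner_sub_left, inner_smul_left, hY, hV, YV ho, eV ho]
      simp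
  have hDu : fderiv ℝ (fderiv ℝ g) (r⁻¹ • X) = r • D := by
    rw [hess_smul hs hh (inv_pos.2 hrpos) hX0, inv_inv]
  have hDX : D X = 0 := hess_self hs hh hX0
  have hDY : D Y = -(p.1 • D e) := by
    have h1 : D (p.1 • e + Y) = 0 := by rw [← hXe]; exact hDX
    rw [map_add, map_smul] at h1
    exact eq_neg_of_add_eq_zero_right h1
  have hDw : D w = r • D e := by
    rw [hw, map_smul, map_sub, map_smul, hDY]
    have : D e - p.1 • -(p.1 • D e) = (r ^ 2) • D e := by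
      rw [hr2]; module
    rw [this, smul_smul]
    congr 1
    field_simp
  have hsym : ∀ p q, D p q = D q p := fun p q => symmE hs hX0 p q
  have e1 : D w w = r ^ 2 * D e e := by
    rw [hDw]
    simp only [_root_.smul_apply, smul_eq_mul]
    rw [hsym e w, hDw]
    simp only [_root_.smul_apply, smul_eq_mul]
    ring
  have e2 : D w V = r * D e V := by
    rw [hDw]
    simp only [_root_.smul_apply, smul_eq_mul]
  rw [rad_frame hs hh ho3, hDu]
  simp only [_root_.smul_apply, smul_eq_mul]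
  unfold dn
  rw [Pn_chart hs ho, Qn_chart hs ho, Sn_chart hs hh ho, ← hX, ← hV, ← hD, e1, e2, ← hr2]
  ring

lemma norm_u (ho : ON e a b) (p : ℝ × ℝ) :
    ‖(Real.sqrt (1 + p.1 ^ 2))⁻¹ • Xv e a b p‖ = 1 := by
  have hrpos : 0 < Real.sqrt (1 + p.1 ^ 2) := Real.sqrt_pos.2 (by positivity)
  have h1 : ‖Xv e a b p‖ = Real.sqrt (1 + p.1 ^ 2) := by
    rw [← XX ho p, real_inner_self_eq_norm_sq, Real.sqrt_sq (norm_nonneg _)]
  rw [norm_smul, h1, Real.norm_eq_abs, abs_of_pos (inv_pos.2 hrpos)]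
  field_simp

lemma dn_pos (hg : Good g) (ho : ON e a b) (p : ℝ × ℝ) :
    0 < dn (fun p => g (Xv e a b p)) p := by
  have h1 := hg.pos _ (norm_u ho p)
  rw [dn_chart hg.smooth hg.homog ho] at h1
  exact pos_of_mul_pos_right h1 (by positivity)

lemma Pn_nonneg (hg : Good g) (ho : ON e a b) (p : ℝ × ℝ) :
    0 ≤ Pn (fun p => g (Xv e a b p)) p := by
  set h : ℝ × ℝ → ℝ := fun p => g (Xv e a b p) with hh
  have hC : ContDiff ℝ 2 h := (contDiff_chart hg.smooth ho).of_le (by norm_num)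
  have e1 : Pn h p = fderiv ℝ (fderiv ℝ h) p (1, 0) (1, 0) := fderiv_apply_const hC p (1,0) (1,0)
  rw [e1, ← deriv2_line hC]
  set k : ℝ → ℝ := fun s => h (p + s • (1, 0)) with hk
  have hkx : ∀ s, k s = g ((p.1 + s) • e + Yv a b p.2) := by
    intro s
    simp [hk, hh, Xv]
  have hconv : ConvexOn ℝ univ k := by
    refine ⟨convex_univ, ?_⟩
    intro x _ y _ α β hα hβ hαβ
    rw [hkx, hkx, hkx]
    have := hg.conv.2 (mem_univ ((p.1 + x) • e + Yv a b p.2))
      (mem_univ ((p.1 + y) • e + Yv a b p.2)) hα hβ hαβ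
    have e2 : α • ((p.1 + x) • e + Yv a b p.2) + β • ((p.1 + y) • e + Yv a b p.2) =
        (p.1 + (α • x + β • y)) • e + Yv a b p.2 := by
      have hb : β = 1 - α := by linarith
      rw [hb]
      simp only [smul_eq_mul]
      module
    rwa [e2] at this
  have hkC : ContDiff ℝ 2 k := by
    have : k = h ∘ fun s : ℝ => p + s • ((1, 0) : ℝ × ℝ) := rfl
    rw [this]
    exact hC.comp (contDiff_const.add (contDiff_id.smul contDiff_const))
  have hmono : MonotoneOn (deriv k) univ :=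
    hconv.monotoneOn_deriv (fun x _ => (hkC.differentiable (by norm_num)) x)
  have := hmono.derivWithin_nonneg (x := (0:ℝ))
  rwa [derivWithin_univ] at this

lemma Pn_pos (hg : Good g) (ho : ON e a b) (p : ℝ × ℝ) :
    0 < Pn (fun p => g (Xv e a b p)) p := by
  have h1 := Pn_nonneg hg ho p
  have h2 := dn_pos hg ho p
  rcases h1.lt_or_eq with h | h
  · exact h
  · exfalso
    unfold dn at h2
    rw [← h] at h2
    nlinarith [sq_nonneg (Qn (fun p => g (Xv e a b p)) p)]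

end chart

end Pool.Agent.H497.Plane
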