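import Pool.Agent.H497.Plane

open Set Filter Topology

namespace Pool.Agent.H497.Plane

lemma pt_add {f g : ℝ × ℝ → ℝ} {p : ℝ × ℝ} (hf : DifferentiableAt ℝ f p)
    (hg : DifferentiableAt ℝ g p) : pt (fun p => f p + g p) p = pt f p + pt g p := by
  unfold pt
  have := (hf.hasFDerivAt.add hg.hasFDerivAt).fderiv
  have h2 : (fun p => f p + g p) = f + g := rfl
  rw [h2, this]
  simp

lemma pt_sub {f g : ℝ × ℝ → ℝ} {p : ℝ × ℝ} (hf : DifferentiableAt ℝ f p)
    (hg : DifferentiableAt ℝ g p) : pt (fun p => f p - g p) p = pt f p - pt g p := by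
  unfold pt
  have := (hf.hasFDerivAt.sub hg.hasFDerivAt).fderiv
  have h2 : (fun p => f p - g p) = f - g := rfl
  rw [h2, this]
  simp

lemma ph_sub {f g : ℝ × ℝ → ℝ} {p : ℝ × ℝ} (hf : DifferentiableAt ℝ f p)
    (hg : DifferentiableAt ℝ g p) : ph (fun p => f p - g p) p = ph f p - ph g p := by
  unfold ph
  have := (hf.hasFDerivAt.sub hg.hasFDerivAt).fderiv
  have h2 : (fun p => f p - g p) = f - g := rfl
  rw [h2, this]
  simp

lemma pt_mul {f g : ℝ × ℝ → ℝ} {p : ℝ × ℝ} (hf : DifferentiableAt ℝ f p)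
    (hg : DifferentiableAt ℝ g p) :
    pt (fun p => f p * g p) p = pt f p * g p + f p * pt g p := by
  unfold pt
  have := (hf.hasFDerivAt.mul hg.hasFDerivAt).fderiv
  have h2 : (fun p => f p * g p) = f * g := rfl
  rw [h2, this]
  simp
  ring

lemma pt_fst (p : ℝ × ℝ) : pt (fun p : ℝ × ℝ => p.1) p = 1 := by
  unfold pt
  rw [(hasFDerivAt_fst (𝕜 := ℝ) (p := p)).fderiv]
  simp

/-- entries of the tangential Hessian in the cylinder chart -/
noncomputable def Pn (h : ℝ × ℝ → ℝ) (p : ℝ × ℝ) : ℝ := pt (pt h) p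
noncomputable def Qn (h : ℝ × ℝ → ℝ) (p : ℝ × ℝ) : ℝ := ph (pt h) p
noncomputable def Sn (h : ℝ × ℝ → ℝ) (p : ℝ × ℝ) : ℝ := ph (ph h) p + h p - p.1 * pt h p
noncomputable def dn (h : ℝ × ℝ → ℝ) (p : ℝ × ℝ) : ℝ := Pn h p * Sn h p - Qn h p ^ 2

lemma C1_Pn {h : ℝ × ℝ → ℝ} (hh : ContDiff ℝ 3 h) : ContDiff ℝ 1 (Pn h) :=
  contDiff_pt (contDiff_pt (m := 2) hh (by norm_num)) (by norm_num)

lemma C1_Qn {h : ℝ × ℝ → ℝ} (hh : ContDiff ℝ 3 h) : ContDiff ℝ 1 (Qn h) :=
  contDiff_ph (contDiff_pt (m := 2) hh (by norm_num)) (by norm_num)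

lemma C1_Sn {h : ℝ × ℝ → ℝ} (hh : ContDiff ℝ 3 h) : ContDiff ℝ 1 (Sn h) := by
  have h1 : ContDiff ℝ 1 (ph (ph h)) :=
    contDiff_ph (contDiff_ph (m := 2) hh (by norm_num)) (by norm_num)
  have h2 : ContDiff ℝ 1 h := hh.of_le (by norm_num)
  have h3 : ContDiff ℝ 1 (pt h) := contDiff_pt hh (by norm_num)
  exact (h1.add h2).sub (contDiff_fst.mul h3)

lemma C1_dn {h : ℝ × ℝ → ℝ} (hh : ContDiff ℝ 3 h) : ContDiff ℝ 1 (dn h) :=
  ((C1_Pn hh).mul (C1_Sn hh)).sub ((C1_Qn hh).pow 2)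

/-- positive definite triples are closed under addition -/
lemma pd_add {P Q S P' Q' S' : ℝ} (hP : 0 < P) (hP' : 0 < P') (hd : 0 < P * S - Q ^ 2)
    (hd' : 0 < P' * S' - Q' ^ 2) : 0 < (P + P') * (S + S') - (Q + Q') ^ 2 := by
  have h1 : 0 < P * P' * (P * S' + P' * S - 2 * Q * Q') := by
    have e : P * P' * (P * S' + P' * S - 2 * Q * Q') =
      P ^ 2 * (P' * S' - Q' ^ 2) + P' ^ 2 * (P * S - Q ^ 2) + (P * Q' - P' * Q) ^ 2 := by ring
    rw [e]
    positivity
  have h2 : 0 < P * S' + P' * S - 2 * Q * Q' := by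
    by_contra h
    push Not at h
    have := mul_nonpos_of_nonneg_of_nonpos (mul_pos hP hP').le h
    linarith
  nlinarith

lemma pd_smul {P Q S t : ℝ} (ht : 0 < t) (hd : 0 < P * S - Q ^ 2) :
    0 < (t * P) * (t * S) - (t * Q) ^ 2 := by
  have e : (t * P) * (t * S) - (t * Q) ^ 2 = t ^ 2 * (P * S - Q ^ 2) := by ring
  rw [e]; positivity

lemma core {a1 b1 a2 b2 : ℝ × ℝ → ℝ} (ha1 : ContDiff ℝ 3 a1) (hb1 : ContDiff ℝ 3 b1)
    (ha2 : ContDiff ℝ 3 a2) (hb2 : ContDiff ℝ 3 b2)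
    (Pa1 : ∀ p, 0 < Pn a1 p) (Pb1 : ∀ p, 0 < Pn b1 p)
    (Pa2 : ∀ p, 0 < Pn a2 p) (Pb2 : ∀ p, 0 < Pn b2 p)
    (Da1 : ∀ p, 0 < dn a1 p) (Db1 : ∀ p, 0 < dn b1 p)
    (Da2 : ∀ p, 0 < dn a2 p) (Db2 : ∀ p, 0 < dn b2 p)
    (hsum : ∀ p, a1 p + b1 p = a2 p + b2 p)
    (hratio : ∀ p, dn b1 p * dn a2 p = dn b2 p * dn a1 p)
    (hper : ∀ τ θ, pt (fun p => a1 p - a2 p) (τ, θ + 2 * Real.pi) =
      pt (fun p => a1 p - a2 p) (τ, θ)) (c0 : ℝ)
    (hlim : ∀ ε > 0, ∃ T : ℝ, ∀ τ θ, T ≤ |τ| → pt (fun p => a1 p - a2 p) (τ, θ) < c0 + ε) :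
    ∀ p, pt (fun p => a1 p - a2 p) p ≤ c0 := by
  set φ : ℝ × ℝ → ℝ := fun p => a1 p - a2 p with hφ
  have hφC : ContDiff ℝ 3 φ := ha1.sub ha2
  have hφ2 : φ = fun p => b2 p - b1 p := by
    funext p
    have := hsum p
    simp only [hφ]
    linarith
  set f : ℝ × ℝ → ℝ := pt φ with hf
  have hfC : ContDiff ℝ 2 f := contDiff_pt hφC (by norm_num)
  -- entries of φ
  have hsubP : ∀ {u v : ℝ × ℝ → ℝ}, ContDiff ℝ 3 u → ContDiff ℝ 3 v → ∀ p,
      Pn (fun p => u p - v p) p = Pn u p - Pn v p := by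
    intro u v hu hv p
    have e : pt (fun p => u p - v p) = fun p => pt u p - pt v p := by
      funext q
      exact pt_sub ((hu.differentiable (by norm_num)) q) ((hv.differentiable (by norm_num)) q)
    unfold Pn
    rw [e]
    exact pt_sub (((contDiff_pt (m := 2) hu (by norm_num)).differentiable (by norm_num)) p)
      (((contDiff_pt (m := 2) hv (by norm_num)).differentiable (by norm_num)) p)
  have hsubQ : ∀ {u v : ℝ × ℝ → ℝ}, ContDiff ℝ 3 u → ContDiff ℝ 3 v → ∀ p,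
      Qn (fun p => u p - v p) p = Qn u p - Qn v p := by
    intro u v hu hv p
    have e : pt (fun p => u p - v p) = fun p => pt u p - pt v p := by
      funext q
      exact pt_sub ((hu.differentiable (by norm_num)) q) ((hv.differentiable (by norm_num)) q)
    unfold Qn
    rw [e]
    exact ph_sub (((contDiff_pt (m := 2) hu (by norm_num)).differentiable (by norm_num)) p)
      (((contDiff_pt (m := 2) hv (by norm_num)).differentiable (by norm_num)) p)
  have hsubS : ∀ {u v : ℝ × ℝ → ℝ}, ContDiff ℝ 3 u → ContDiff ℝ 3 v → ∀ p,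
      Sn (fun p => u p - v p) p = Sn u p - Sn v p := by
    intro u v hu hv p
    have e : ph (fun p => u p - v p) = fun p => ph u p - ph v p := by
      funext q
      exact ph_sub ((hu.differentiable (by norm_num)) q) ((hv.differentiable (by norm_num)) q)
    have e1 : ph (ph (fun p => u p - v p)) p = ph (ph u) p - ph (ph v) p := by
      rw [e]
      exact ph_sub (((contDiff_ph (m := 2) hu (by norm_num)).differentiable (by norm_num)) p)
        (((contDiff_ph (m := 2) hv (by norm_num)).differentiable (by norm_num)) p)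
    have e2 : pt (fun p => u p - v p) p = pt u p - pt v p :=
      pt_sub ((hu.differentiable (by norm_num)) p) ((hv.differentiable (by norm_num)) p)
    unfold Sn
    rw [e1, e2]
    ring
  set b11 : ℝ × ℝ → ℝ := fun p => dn b1 p * (Pn a1 p + Pn a2 p) + dn a1 p * (Pn b1 p + Pn b2 p)
    with hb11
  set b12 : ℝ × ℝ → ℝ := fun p => dn b1 p * (Qn a1 p + Qn a2 p) + dn a1 p * (Qn b1 p + Qn b2 p)
    with hb12
  set b22 : ℝ × ℝ → ℝ := fun p => dn b1 p * (Sn a1 p + Sn a2 p) + dn a1 p * (Sn b1 p + Sn b2 p)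
    with hb22
  have C11 : ContDiff ℝ 1 b11 := ((C1_dn hb1).mul ((C1_Pn ha1).add (C1_Pn ha2))).add
    ((C1_dn ha1).mul ((C1_Pn hb1).add (C1_Pn hb2)))
  have C12 : ContDiff ℝ 1 b12 := ((C1_dn hb1).mul ((C1_Qn ha1).add (C1_Qn ha2))).add
    ((C1_dn ha1).mul ((C1_Qn hb1).add (C1_Qn hb2)))
  have C22 : ContDiff ℝ 1 b22 := ((C1_dn hb1).mul ((C1_Sn ha1).add (C1_Sn ha2))).add
    ((C1_dn ha1).mul ((C1_Sn hb1).add (C1_Sn hb2)))
  have p11 : ∀ p, 0 < b11 p := by
    intro p
    have := Pa1 p; have := Pa2 p; have := Pb1 p; have := Pb2 p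
    have := Da1 p; have := Db1 p
    simp only [hb11]
    positivity
  have pdet : ∀ p, 0 < b11 p * b22 p - b12 p ^ 2 := by
    intro p
    have h1 := pd_add (Pa1 p) (Pa2 p) (Da1 p) (Da2 p)
    have h2 := pd_add (Pb1 p) (Pb2 p) (Db1 p) (Db2 p)
    have h3 := pd_smul (Db1 p) h1
    have h4 := pd_smul (Da1 p) h2
    exact pd_add (mul_pos (Db1 p) (add_pos (Pa1 p) (Pa2 p)))
      (mul_pos (Da1 p) (add_pos (Pb1 p) (Pb2 p))) h3 h4
  have p22 : ∀ p, 0 < b22 p := by
    intro p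
    have h1 := p11 p
    have h2 := pdet p
    by_contra h
    push Not at h
    have := mul_nonpos_of_nonneg_of_nonpos h1.le h
    nlinarith [sq_nonneg (b12 p)]
  -- the equation
  have hN : ∀ p, b22 p * Pn φ p - 2 * (b12 p * Qn φ p) + b11 p * Sn φ p = 0 := by
    intro p
    have e1 : Pn φ p = Pn a1 p - Pn a2 p := hsubP ha1 ha2 p
    have e2 : Pn φ p = Pn b2 p - Pn b1 p := by rw [hφ2]; exact hsubP hb2 hb1 p
    have e3 : Qn φ p = Qn a1 p - Qn a2 p := hsubQ ha1 ha2 p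
    have e4 : Qn φ p = Qn b2 p - Qn b1 p := by rw [hφ2]; exact hsubQ hb2 hb1 p
    have e5 : Sn φ p = Sn a1 p - Sn a2 p := hsubS ha1 ha2 p
    have e6 : Sn φ p = Sn b2 p - Sn b1 p := by rw [hφ2]; exact hsubS hb2 hb1 p
    have key : b22 p * Pn φ p - 2 * (b12 p * Qn φ p) + b11 p * Sn φ p =
        dn b1 p * ((Sn a1 p + Sn a2 p) * (Pn φ p) - 2 * (Qn a1 p + Qn a2 p) * (Qn φ p) +
          (Pn a1 p + Pn a2 p) * (Sn φ p)) +
        dn a1 p * ((Sn b1 p + Sn b2 p) * (Pn φ p) - 2 * (Qn b1 p + Qn b2 p) * (Qn φ p) +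
          (Pn b1 p + Pn b2 p) * (Sn φ p)) := by
      simp only [hb11, hb12, hb22]; ring
    have k1 : (Sn a1 p + Sn a2 p) * (Pn φ p) - 2 * (Qn a1 p + Qn a2 p) * (Qn φ p) +
          (Pn a1 p + Pn a2 p) * (Sn φ p) = 2 * (dn a1 p - dn a2 p) := by
      rw [e1, e3, e5]; unfold dn; ring
    have k2 : (Sn b1 p + Sn b2 p) * (Pn φ p) - 2 * (Qn b1 p + Qn b2 p) * (Qn φ p) +
          (Pn b1 p + Pn b2 p) * (Sn φ p) = 2 * (dn b2 p - dn b1 p) := by
      rw [e2, e4, e6]; unfold dn; ring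
    rw [key, k1, k2]
    have := hratio p
    linear_combination (-2) * this
  have d11 : Differentiable ℝ b11 := C11.differentiable (by norm_num)
  have d12 : Differentiable ℝ b12 := C12.differentiable (by norm_num)
  have d22 : Differentiable ℝ b22 := C22.differentiable (by norm_num)
  have dP : Differentiable ℝ (Pn φ) := (C1_Pn hφC).differentiable (by norm_num)
  have dQ : Differentiable ℝ (Qn φ) := (C1_Qn hφC).differentiable (by norm_num)
  have dS : Differentiable ℝ (Sn φ) := (C1_Sn hφC).differentiable (by norm_num)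
  have hptP : ∀ p, pt (Pn φ) p = pt (pt f) p := fun p => rfl
  have hptQ : ∀ p, pt (Qn φ) p = ph (pt f) p := fun p => pt_ph_comm hfC p
  have hptS : ∀ p, pt (Sn φ) p = ph (ph f) p - p.1 * pt f p := by
    intro p
    have hphC : ContDiff ℝ 2 (ph φ) := contDiff_ph hφC (by norm_num)
    have e1 : pt (ph (ph φ)) p = ph (ph f) p := by
      rw [pt_ph_comm hphC]
      have : pt (ph φ) = ph f := by
        funext q
        exact pt_ph_comm (hφC.of_le (by norm_num)) q
      rw [this]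
    have dd1 : Differentiable ℝ (ph (ph φ)) :=
      (contDiff_ph (m := 1) hphC (by norm_num)).differentiable (by norm_num)
    have dd2 : Differentiable ℝ φ := hφC.differentiable (by norm_num)
    have dd3 : Differentiable ℝ f := hfC.differentiable (by norm_num)
    have e2 : Sn φ = fun p => (ph (ph φ) p + φ p) - p.1 * f p := rfl
    have t1 : pt (fun p => (ph (ph φ) p + φ p) - p.1 * f p) p =
        pt (fun p => ph (ph φ) p + φ p) p - pt (fun p => p.1 * f p) p :=
      pt_sub (f := fun p => ph (ph φ) p + φ p) (g := fun p => p.1 * f p) ((dd1.add dd2) p)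
        ((differentiable_fst.mul dd3) p)
    have t2 : pt (fun p => ph (ph φ) p + φ p) p = pt (ph (ph φ)) p + pt φ p :=
      pt_add (dd1 p) (dd2 p)
    have t3 : pt (fun p => p.1 * f p) p = pt (fun p : ℝ × ℝ => p.1) p * f p + p.1 * pt f p :=
      pt_mul (differentiable_fst p) (dd3 p)
    rw [e2, t1, t2, t3, pt_fst, e1]
    ring
  have hptN : ∀ p, (pt b22 p * Pn φ p + b22 p * pt (pt f) p) -
      2 * (pt b12 p * Qn φ p + b12 p * ph (pt f) p) +
      (pt b11 p * Sn φ p + b11 p * (ph (ph f) p - p.1 * pt f p)) = 0 := by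
    intro p
    have e0 : (fun p => (b22 p * Pn φ p + (-2) * (b12 p * Qn φ p)) + b11 p * Sn φ p) =
        fun _ => 0 := by
      funext q
      have := hN q
      linarith
    have e1 : pt (fun p => (b22 p * Pn φ p + (-2) * (b12 p * Qn φ p)) + b11 p * Sn φ p) p = 0 := by
      rw [e0]; unfold pt; simp
    have dA : Differentiable ℝ (fun p => b22 p * Pn φ p) := d22.mul dP
    have dB : Differentiable ℝ (fun p => b12 p * Qn φ p) := d12.mul dQ
    have dC : Differentiable ℝ (fun p => b11 p * Sn φ p) := d11.mul dS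
    have t1 : pt (fun p => (b22 p * Pn φ p + (-2) * (b12 p * Qn φ p)) + b11 p * Sn φ p) p =
        pt (fun p => b22 p * Pn φ p + (-2) * (b12 p * Qn φ p)) p + pt (fun p => b11 p * Sn φ p) p :=
      pt_add (f := fun p => b22 p * Pn φ p + (-2) * (b12 p * Qn φ p))
        (g := fun p => b11 p * Sn φ p) ((dA.add (dB.const_mul (-2))) p) (dC p)
    have t2 : pt (fun p => b22 p * Pn φ p + (-2) * (b12 p * Qn φ p)) p =
        pt (fun p => b22 p * Pn φ p) p + (-2) * pt (fun p => b12 p * Qn φ p) p :=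
      pt_add_mul dA dB (-2) p
    rw [t1, t2, pt_mul (d22 p) (dP p), pt_mul (d12 p) (dQ p),
      pt_mul (d11 p) (dS p), hptP, hptQ, hptS] at e1
    linarith
  -- apply the maximum principle
  refine max_principle (b11 := b11) (b12 := b12) (b22 := b22)
    (c1 := fun p => pt b22 p - p.1 * b11 p - pt b11 p * b22 p / b11 p)
    (c2 := fun p => -2 * pt b12 p + 2 * pt b11 p * b12 p / b11 p) hfC C22.continuous ?_ p11 p22
    (fun p => (pdet p).le) ?_ hper c0 hlim
  · have c1 : Continuous (pt b22) := (contDiff_pt (m := 0) C22 (by norm_num)).continuous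
    have c2 : Continuous (pt b11) := (contDiff_pt (m := 0) C11 (by norm_num)).continuous
    have c3 := C11.continuous
    have c4 := C22.continuous
    exact (c1.sub (continuous_fst.mul c3)).sub ((c2.mul c4).div c3 (fun p => (p11 p).ne'))
  · intro p
    have h1 := hN p
    have h2 := hptN p
    have h3 := (p11 p).ne'
    have e1 : Pn φ p = pt f p := rfl
    have e2 : Qn φ p = ph f p := rfl
    rw [e1, e2] at h1 h2
    have e3 : Sn φ p = (2 * b12 p * ph f p - b22 p * pt f p) / b11 p := by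
      field_simp
      linarith
    rw [e3] at h2
    have e4 : b22 p * pt (pt f) p - 2 * b12 p * ph (pt f) p + b11 p * ph (ph f) p
      + (pt b22 p - p.1 * b11 p - pt b11 p * b22 p / b11 p) * pt f p +
      (-2 * pt b12 p + 2 * pt b11 p * b12 p / b11 p) * ph f p =
      (pt b22 p * pt f p + b22 p * pt (pt f) p) -
      2 * (pt b12 p * ph f p + b12 p * ph (pt f) p) +
      (pt b11 p * ((2 * b12 p * ph f p - b22 p * pt f p) / b11 p) +
        b11 p * (ph (ph f) p - p.1 * pt f p)) := by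
      field_simp
      ring
    show b22 p * pt (pt f) p - 2 * b12 p * ph (pt f) p + b11 p * ph (ph f) p
      + (pt b22 p - p.1 * b11 p - pt b11 p * b22 p / b11 p) * pt f p +
      (-2 * pt b12 p + 2 * pt b11 p * b12 p / b11 p) * ph f p = 0
    rw [e4]
    exact h2

end Pool.Agent.H497.Plane
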