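import Pool.Agent.H497.Core

open Set Filter Topology

namespace Pool.Agent.H497.Plane

abbrev E3 : Type := EuclideanSpace ℝ (Fin 3)

/-- determinant of the Hessian plus the projection on the normal -/
noncomputable def rad (g : E3 → ℝ) (u : E3) : ℝ :=
  Matrix.det (Matrix.of fun i j : Fin 3 =>
    fderiv ℝ (fderiv ℝ g) u (EuclideanSpace.single i 1) (EuclideanSpace.single j 1) + u i * u j)

structure Good (g : E3 → ℝ) : Prop where
  smooth : ∀ x, x ≠ 0 → ContDiffAt ℝ 3 g x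
  homog : ∀ t : ℝ, 0 < t → ∀ x, g (t • x) = t * g x
  conv : ConvexOn ℝ univ g
  pos : ∀ u, ‖u‖ = 1 → 0 < rad g u

section homog
variable {g : E3 → ℝ}

lemma diffAt (hs : ∀ x, x ≠ 0 → ContDiffAt ℝ 3 g x) {x : E3} (hx : x ≠ 0) :
    DifferentiableAt ℝ g x := (hs x hx).differentiableAt (by norm_num)

lemma contDiffAt_fderiv (hs : ∀ x, x ≠ 0 → ContDiffAt ℝ 3 g x) {x : E3} (hx : x ≠ 0) :
    ContDiffAt ℝ 2 (fderiv ℝ g) x := (hs x hx).fderiv_right (by norm_num)

lemma diffAt_fderiv (hs : ∀ x, x ≠ 0 → ContDiffAt ℝ 3 g x) {x : E3} (hx : x ≠ 0) :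
    DifferentiableAt ℝ (fderiv ℝ g) x := (contDiffAt_fderiv hs hx).differentiableAt (by norm_num)

lemma symmE (hs : ∀ x, x ≠ 0 → ContDiffAt ℝ 3 g x) {x : E3} (hx : x ≠ 0) (p q : E3) :
    fderiv ℝ (fderiv ℝ g) x p q = fderiv ℝ (fderiv ℝ g) x q p := by
  have h : IsSymmSndFDerivAt ℝ g x := (hs x hx).isSymmSndFDerivAt (by simp; norm_num)
  exact h p q

lemma fderiv_smul_pt (hs : ∀ x, x ≠ 0 → ContDiffAt ℝ 3 g x)
    (hh : ∀ t : ℝ, 0 < t → ∀ x, g (t • x) = t * g x) {t : ℝ} (ht : 0 < t) {x : E3}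
    (hx : x ≠ 0) : fderiv ℝ g (t • x) = fderiv ℝ g x := by
  have hx' : t • x ≠ 0 := smul_ne_zero ht.ne' hx
  have h1 : HasFDerivAt (fun y : E3 => g (t • y))
      ((fderiv ℝ g (t • x)).comp (t • ContinuousLinearMap.id ℝ E3)) x :=
    (diffAt hs hx').hasFDerivAt.comp x ((hasFDerivAt_id x).const_smul t)
  have h2 : HasFDerivAt (fun y : E3 => g (t • y)) (t • fderiv ℝ g x) x := by
    have e : (fun y : E3 => g (t • y)) = fun y => t * g y := by
      funext y; exact hh t ht y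
    rw [e]
    exact (diffAt hs hx).hasFDerivAt.const_mul t
  have h3 := h1.unique h2
  ext v
  have h4 := congrArg (fun L : E3 →L[ℝ] ℝ => L v) h3
  simp at h4
  exact h4.resolve_right ht.ne'

lemma euler (hs : ∀ x, x ≠ 0 → ContDiffAt ℝ 3 g x)
    (hh : ∀ t : ℝ, 0 < t → ∀ x, g (t • x) = t * g x) {x : E3}
    (hx : x ≠ 0) : fderiv ℝ g x x = g x := by
  have h0 : HasDerivAt (fun t : ℝ => t • x) x 1 := by
    simpa using (hasDerivAt_id (1:ℝ)).smul_const x
  have h1 : HasDerivAt (fun t : ℝ => g (t • x)) (fderiv ℝ g x x) 1 := by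
    have := (diffAt hs (x := (1:ℝ) • x) (by simpa using hx)).hasFDerivAt.comp_hasDerivAt (1:ℝ) h0
    simpa [Function.comp_def] using this
  have h2 : HasDerivAt (fun t : ℝ => g (t • x)) (g x) 1 := by
    have h3 : HasDerivAt (fun t : ℝ => t * g x) (g x) 1 := by
      simpa using (hasDerivAt_id (1:ℝ)).mul_const (g x)
    apply h3.congr_of_eventuallyEq
    filter_upwards [lt_mem_nhds (show (0:ℝ) < 1 by norm_num)] with t ht
    exact hh t ht x
  exact h1.unique h2

lemma hess_self (hs : ∀ x, x ≠ 0 → ContDiffAt ℝ 3 g x)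
    (hh : ∀ t : ℝ, 0 < t → ∀ x, g (t • x) = t * g x) {x : E3}
    (hx : x ≠ 0) : fderiv ℝ (fderiv ℝ g) x x = 0 := by
  have h0 : HasDerivAt (fun t : ℝ => t • x) x 1 := by
    simpa using (hasDerivAt_id (1:ℝ)).smul_const x
  have h1 : HasDerivAt (fun t : ℝ => fderiv ℝ g (t • x)) (fderiv ℝ (fderiv ℝ g) x x) 1 := by
    have := (diffAt_fderiv hs (x := (1:ℝ) • x)
      (by simpa using hx)).hasFDerivAt.comp_hasDerivAt (1:ℝ) h0
    simpa [Function.comp_def] using this
  have h2 : HasDerivAt (fun t : ℝ => fderiv ℝ g (t • x)) 0 1 := by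
    have h3 : HasDerivAt (fun _ : ℝ => fderiv ℝ g x) 0 1 := hasDerivAt_const _ _
    apply h3.congr_of_eventuallyEq
    filter_upwards [lt_mem_nhds (show (0:ℝ) < 1 by norm_num)] with t ht
    exact fderiv_smul_pt hs hh ht hx
  exact h1.unique h2

lemma hess_smul (hs : ∀ x, x ≠ 0 → ContDiffAt ℝ 3 g x)
    (hh : ∀ t : ℝ, 0 < t → ∀ x, g (t • x) = t * g x) {t : ℝ} (ht : 0 < t) {x : E3}
    (hx : x ≠ 0) : fderiv ℝ (fderiv ℝ g) (t • x) = t⁻¹ • fderiv ℝ (fderiv ℝ g) x := by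
  have hx' : t • x ≠ 0 := smul_ne_zero ht.ne' hx
  have h1 : HasFDerivAt (fun y : E3 => fderiv ℝ g (t • y))
      ((fderiv ℝ (fderiv ℝ g) (t • x)).comp (t • ContinuousLinearMap.id ℝ E3)) x :=
    (diffAt_fderiv hs hx').hasFDerivAt.comp x ((hasFDerivAt_id x).const_smul t)
  have h2 : HasFDerivAt (fun y : E3 => fderiv ℝ g (t • y)) (fderiv ℝ (fderiv ℝ g) x) x := by
    apply (diffAt_fderiv hs hx).hasFDerivAt.congr_of_eventuallyEq
    filter_upwards [isOpen_ne.mem_nhds hx] with y hy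
    exact fderiv_smul_pt hs hh ht hy
  have h3 := h1.unique h2
  rw [← h3]
  ext v w
  simp
  field_simp

end homog

/-- change of orthonormal basis in a determinant -/
lemma det_frame (B : E3 →L[ℝ] E3 →L[ℝ] ℝ) (o : Fin 3 → E3) (ho : Orthonormal ℝ o) :
    Matrix.det (Matrix.of fun i j : Fin 3 =>
      B (EuclideanSpace.single i 1) (EuclideanSpace.single j 1)) =
    Matrix.det (Matrix.of fun i j : Fin 3 => B (o i) (o j)) := by
  set M : Matrix (Fin 3) (Fin 3) ℝ := Matrix.of fun i j : Fin 3 =>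
      B (EuclideanSpace.single i 1) (EuclideanSpace.single j 1) with hM
  set O : Matrix (Fin 3) (Fin 3) ℝ := Matrix.of fun i a => (o a) i with hO
  have h1 : O.transpose * O = 1 := by
    ext a b
    rw [orthonormal_iff_ite] at ho
    have h := ho a b
    simp only [Matrix.mul_apply, Matrix.transpose_apply, hO, Matrix.of_apply, Matrix.one_apply]
    rw [← h]
    simp [PiLp.inner_apply, mul_comm]
  have h2 : (Matrix.of fun i j : Fin 3 => B (o i) (o j)) = O.transpose * M * O := by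
    ext a b
    have hx : ∀ x : E3, x = x 0 • EuclideanSpace.single (0 : Fin 3) (1:ℝ) +
        x 1 • EuclideanSpace.single (1 : Fin 3) (1:ℝ) +
        x 2 • EuclideanSpace.single (2 : Fin 3) (1:ℝ) := by
      intro x
      ext i
      fin_cases i <;> simp
    simp only [Matrix.of_apply]
    conv_lhs => rw [hx (o a), hx (o b)]
    simp only [map_add, map_smul, _root_.add_apply, _root_.smul_apply, smul_eq_mul,
      Matrix.mul_apply, Fin.sum_univ_three, Matrix.transpose_apply, hO, hM, Matrix.of_apply]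
    ring
  rw [h2, Matrix.det_mul, Matrix.det_mul]
  have h3 : O.transpose.det * O.det = 1 := by
    rw [← Matrix.det_mul, h1, Matrix.det_one]
  linear_combination (-M.det) * h3

lemma rad_frame {g : E3 → ℝ} (hs : ∀ x, x ≠ 0 → ContDiffAt ℝ 3 g x)
    (hh : ∀ t : ℝ, 0 < t → ∀ x, g (t • x) = t * g x) {u w v : E3}
    (ho : Orthonormal ℝ ![u, w, v]) :
    rad g u = fderiv ℝ (fderiv ℝ g) u w w * fderiv ℝ (fderiv ℝ g) u v v -
      (fderiv ℝ (fderiv ℝ g) u w v) ^ 2 := by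
  have hu : ‖u‖ = 1 := by simpa using ho.1 0
  have hu0 : u ≠ 0 := by
    intro h; rw [h] at hu; simp at hu
  set B : E3 →L[ℝ] E3 →L[ℝ] ℝ := fderiv ℝ (fderiv ℝ g) u +
    (innerSL ℝ u).smulRight (innerSL ℝ u) with hB
  have hBv : ∀ p q, B p q = fderiv ℝ (fderiv ℝ g) u p q + inner ℝ u p * inner ℝ u q := by
    intro p q
    simp [hB]
  have h1 : rad g u = Matrix.det (Matrix.of fun i j : Fin 3 =>
      B (EuclideanSpace.single i 1) (EuclideanSpace.single j 1)) := by
    unfold rad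
    congr 1
    ext i j
    simp [hBv, EuclideanSpace.inner_single_right]
  have i1 : inner ℝ u w = (0:ℝ) := by
    have := ho.2 (show (0 : Fin 3) ≠ 1 by decide)
    simpa using this
  have i2 : inner ℝ u v = (0:ℝ) := by
    have := ho.2 (show (0 : Fin 3) ≠ 2 by decide)
    simpa using this
  have i0 : inner ℝ u u = (1:ℝ) := by
    rw [real_inner_self_eq_norm_sq, hu]; norm_num
  have k1 : ∀ q, fderiv ℝ (fderiv ℝ g) u u q = 0 := by
    intro q; rw [hess_self hs hh hu0]; simp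
  have k2 : ∀ q, fderiv ℝ (fderiv ℝ g) u q u = 0 := by
    intro q; rw [symmE hs hu0, k1]
  have k3 : fderiv ℝ (fderiv ℝ g) u v w = fderiv ℝ (fderiv ℝ g) u w v := symmE hs hu0 _ _
  rw [h1, det_frame B _ ho, Matrix.det_fin_three]
  simp [hBv, hu, i1, i2, k1, k2, k3]
  ring

end Pool.Agent.H497.Plane
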