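import Mathlib

open Set Filter Topology

namespace Pool.Agent.H497.Plane

/-- derivative in the first variable -/
noncomputable def pt (F : ℝ × ℝ → ℝ) (p : ℝ × ℝ) : ℝ := fderiv ℝ F p (1, 0)
/-- derivative in the second variable -/
noncomputable def ph (F : ℝ × ℝ → ℝ) (p : ℝ × ℝ) : ℝ := fderiv ℝ F p (0, 1)

lemma contDiff_pt {n m : WithTop ℕ∞} {F : ℝ × ℝ → ℝ} (hF : ContDiff ℝ n F) (h : m + 1 ≤ n) :
    ContDiff ℝ m (pt F) :=
  (hF.fderiv_right h).clm_apply contDiff_const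

lemma contDiff_ph {n m : WithTop ℕ∞} {F : ℝ × ℝ → ℝ} (hF : ContDiff ℝ n F) (h : m + 1 ≤ n) :
    ContDiff ℝ m (ph F) :=
  (hF.fderiv_right h).clm_apply contDiff_const

lemma fderiv_apply_const {F : ℝ × ℝ → ℝ} (hF : ContDiff ℝ 2 F) (p d d' : ℝ × ℝ) :
    fderiv ℝ (fun q => fderiv ℝ F q d) p d' = fderiv ℝ (fderiv ℝ F) p d' d := by
  have h1 : DifferentiableAt ℝ (fderiv ℝ F) p :=
    ((hF.fderiv_right (m := 1) (by norm_num)).differentiable (by norm_num)) p
  have h2 := (h1.hasFDerivAt.clm_apply (hasFDerivAt_const d p)).fderiv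
  rw [h2]
  simp

lemma symm2 {F : ℝ × ℝ → ℝ} (hF : ContDiff ℝ 2 F) (p d d' : ℝ × ℝ) :
    fderiv ℝ (fderiv ℝ F) p d d' = fderiv ℝ (fderiv ℝ F) p d' d := by
  have h : IsSymmSndFDerivAt ℝ F p := hF.contDiffAt.isSymmSndFDerivAt (by simp)
  exact h d d'

lemma pt_ph_comm {F : ℝ × ℝ → ℝ} (hF : ContDiff ℝ 2 F) (p : ℝ × ℝ) :
    pt (ph F) p = ph (pt F) p := by
  unfold pt ph
  rw [fderiv_apply_const hF, fderiv_apply_const hF, symm2 hF]

lemma hasFDerivAt_line (p d : ℝ × ℝ) (s : ℝ) :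
    HasDerivAt (fun s : ℝ => p + s • d) d s := by
  simpa using ((hasDerivAt_id s).smul_const d).const_add p

/-- second derivative necessary condition at a local maximum -/
lemma second_deriv_nonpos {g : ℝ → ℝ} {x : ℝ} (hmax : IsLocalMax g x) (hc : ContinuousAt g x) :
    deriv (deriv g) x ≤ 0 := by
  by_contra hcon
  push Not at hcon
  have h1 : deriv g x = 0 := hmax.deriv_eq_zero
  have h2 : IsLocalMin g x := isLocalMin_of_deriv_deriv_pos hcon h1 hc
  have h3 : g =ᶠ[𝓝 x] (fun _ => g x) := by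
    filter_upwards [hmax, h2] with y hy1 hy2
    exact le_antisymm hy1 hy2
  have h4 : deriv g =ᶠ[𝓝 x] deriv (fun _ => g x) := h3.deriv
  have h5 : deriv (deriv g) x = deriv (deriv (fun _ : ℝ => g x)) x := h4.deriv_eq
  simp at h5
  linarith

lemma deriv_line {F : ℝ × ℝ → ℝ} (hF : ContDiff ℝ 2 F) (p d : ℝ × ℝ) :
    deriv (fun s : ℝ => F (p + s • d)) = fun s => fderiv ℝ F (p + s • d) d := by
  funext s
  have h1 : DifferentiableAt ℝ F (p + s • d) := (hF.differentiable (by norm_num)) _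
  have := h1.hasFDerivAt.comp_hasDerivAt s (hasFDerivAt_line p d s)
  exact this.deriv

lemma deriv2_line {F : ℝ × ℝ → ℝ} (hF : ContDiff ℝ 2 F) (p d : ℝ × ℝ) :
    deriv (deriv (fun s : ℝ => F (p + s • d))) 0 = fderiv ℝ (fderiv ℝ F) p d d := by
  rw [deriv_line hF]
  have h1 : DifferentiableAt ℝ (fun q => fderiv ℝ F q d) (p + (0:ℝ) • d) :=
    (((hF.fderiv_right (m := 1) (by norm_num)).clm_apply contDiff_const).differentiable
      (by norm_num)) _
  have h2 := (h1.hasFDerivAt.comp_hasDerivAt (0:ℝ) (hasFDerivAt_line p d 0)).deriv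
  have h3 : (fun s : ℝ => fderiv ℝ F (p + s • d) d) = (fun q => fderiv ℝ F q d) ∘
      (fun s : ℝ => p + s • d) := rfl
  rw [h3, h2, fderiv_apply_const hF]
  simp

lemma hess_at_max {G : ℝ × ℝ → ℝ} (hG : ContDiff ℝ 2 G) {p : ℝ × ℝ} (hmax : IsLocalMax G p)
    (d : ℝ × ℝ) : fderiv ℝ (fderiv ℝ G) p d d ≤ 0 := by
  have hline : Tendsto (fun s : ℝ => p + s • d) (𝓝 0) (𝓝 p) := by
    have : ContinuousAt (fun s : ℝ => p + s • d) 0 := (hasFDerivAt_line p d 0).continuousAt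
    simpa [ContinuousAt] using this
  have hm : IsLocalMax (fun s : ℝ => G (p + s • d)) 0 := by
    have := hline.eventually hmax
    filter_upwards [this] with s hs
    simpa using hs
  have hc : ContinuousAt (fun s : ℝ => G (p + s • d)) 0 := by
    have h1 : Continuous (fun s : ℝ => G (p + s • d)) := by
      have := hG.continuous
      fun_prop
    exact h1.continuousAt
  have := second_deriv_nonpos hm hc
  rwa [deriv2_line hG] at this

/-- quadratic form inequality at the maximum -/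
lemma quad_at_max {G : ℝ × ℝ → ℝ} (hG : ContDiff ℝ 2 G) {p : ℝ × ℝ} (hmax : IsLocalMax G p)
    {a b c : ℝ} (ha : 0 < a) (hdet : 0 ≤ a * c - b ^ 2) :
    c * pt (pt G) p - 2 * b * ph (pt G) p + a * ph (ph G) p ≤ 0 := by
  set Hf := fderiv ℝ (fderiv ℝ G) p with hHf
  have e1 : pt (pt G) p = Hf (1, 0) (1, 0) := fderiv_apply_const hG p (1,0) (1,0)
  have e2 : ph (pt G) p = Hf (0, 1) (1, 0) := fderiv_apply_const hG p (1,0) (0,1)
  have e3 : ph (ph G) p = Hf (0, 1) (0, 1) := fderiv_apply_const hG p (0,1) (0,1)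
  have e4 : Hf (1, 0) (0, 1) = Hf (0, 1) (1, 0) := symm2 hG p _ _
  have hd : ∀ x y : ℝ, Hf (x, y) (x, y) =
      x ^ 2 * Hf (1, 0) (1, 0) + 2 * x * y * Hf (0, 1) (1, 0) + y ^ 2 * Hf (0, 1) (0, 1) := by
    intro x y
    have hxy : ((x, y) : ℝ × ℝ) = x • (1, 0) + y • (0, 1) := by
      ext <;> simp
    rw [hxy]
    simp only [map_add, map_smul, _root_.add_apply, _root_.smul_apply,
      smul_eq_mul]
    rw [e4]
    ring
  have h1 := hess_at_max hG hmax (1, 0)
  have h2 := hess_at_max hG hmax (-b / a, 1)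
  rw [← hHf] at h1 h2
  rw [hd] at h2
  rw [e1, e2, e3]
  have key : c * Hf (1, 0) (1, 0) - 2 * b * Hf (0, 1) (1, 0) + a * Hf (0, 1) (0, 1) =
      a * ((-b / a) ^ 2 * Hf (1, 0) (1, 0) + 2 * (-b / a) * 1 * Hf (0, 1) (1, 0) +
        1 ^ 2 * Hf (0, 1) (0, 1)) + (a * c - b ^ 2) / a * Hf (1, 0) (1, 0) := by
    field_simp
    ring
  rw [key]
  have h3 : a * ((-b / a) ^ 2 * Hf (1, 0) (1, 0) + 2 * (-b / a) * 1 * Hf (0, 1) (1, 0) +
        1 ^ 2 * Hf (0, 1) (0, 1)) ≤ 0 := mul_nonpos_of_nonneg_of_nonpos ha.le h2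
  have h4 : (a * c - b ^ 2) / a * Hf (1, 0) (1, 0) ≤ 0 :=
    mul_nonpos_of_nonneg_of_nonpos (by positivity) h1
  linarith


lemma pt_add_mul {f g : ℝ × ℝ → ℝ} (hf : Differentiable ℝ f) (hg : Differentiable ℝ g) (δ : ℝ)
    (p : ℝ × ℝ) : pt (fun p => f p + δ * g p) p = pt f p + δ * pt g p := by
  unfold pt
  have := ((hf p).hasFDerivAt.add ((hg p).hasFDerivAt.const_mul δ)).fderiv
  have h2 : (fun p => f p + δ * g p) = f + fun p => δ * g p := rfl
  rw [h2, this]
  simp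

lemma ph_add_mul {f g : ℝ × ℝ → ℝ} (hf : Differentiable ℝ f) (hg : Differentiable ℝ g) (δ : ℝ)
    (p : ℝ × ℝ) : ph (fun p => f p + δ * g p) p = ph f p + δ * ph g p := by
  unfold ph
  have := ((hf p).hasFDerivAt.add ((hg p).hasFDerivAt.const_mul δ)).fderiv
  have h2 : (fun p => f p + δ * g p) = f + fun p => δ * g p := rfl
  rw [h2, this]
  simp

lemma hasFDerivAt_exp (l : ℝ) (p : ℝ × ℝ) : HasFDerivAt (fun p : ℝ × ℝ => Real.exp (l * p.1))
    (Real.exp (l * p.1) • (l • ContinuousLinearMap.fst ℝ ℝ ℝ)) p :=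
  (hasFDerivAt_fst.const_mul l).exp

lemma pt_exp (l : ℝ) (p : ℝ × ℝ) :
    pt (fun p : ℝ × ℝ => Real.exp (l * p.1)) p = l * Real.exp (l * p.1) := by
  unfold pt
  rw [(hasFDerivAt_exp l p).fderiv]
  simp [mul_comm]

lemma ph_exp (l : ℝ) (p : ℝ × ℝ) :
    ph (fun p : ℝ × ℝ => Real.exp (l * p.1)) p = 0 := by
  unfold ph
  rw [(hasFDerivAt_exp l p).fderiv]
  simp

lemma max_principle {f b11 b12 b22 c1 c2 : ℝ × ℝ → ℝ} (hf : ContDiff ℝ 2 f)
    (hb22c : Continuous b22) (hc1 : Continuous c1) (hb11 : ∀ p, 0 < b11 p)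
    (hb22 : ∀ p, 0 < b22 p) (hdet : ∀ p, 0 ≤ b11 p * b22 p - b12 p ^ 2)
    (heq : ∀ p, b22 p * pt (pt f) p - 2 * b12 p * ph (pt f) p + b11 p * ph (ph f) p
      + c1 p * pt f p + c2 p * ph f p = 0)
    (hper : ∀ τ θ, f (τ, θ + 2 * Real.pi) = f (τ, θ)) (c0 : ℝ)
    (hlim : ∀ ε > 0, ∃ T : ℝ, ∀ τ θ, T ≤ |τ| → f (τ, θ) < c0 + ε) : ∀ p, f p ≤ c0 := by
  by_contra hcon
  push Not at hcon
  obtain ⟨p1, hp1⟩ := hcon
  set ε := (f p1 - c0) / 2 with hε
  have hεpos : 0 < ε := by rw [hε]; linarith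
  obtain ⟨T0, hT0⟩ := hlim ε hεpos
  set T := max T0 (|p1.1| + 1) with hT
  have hTpos : 0 < T := lt_of_lt_of_le (by positivity) (le_max_right _ _)
  have hTT0 : T0 ≤ T := le_max_left _ _
  have hTp : |p1.1| < T := lt_of_lt_of_le (by linarith) (le_max_right T0 (|p1.1| + 1))
  have hpi : 0 < 2 * Real.pi := by positivity
  set K : Set (ℝ × ℝ) := Icc (-T) T ×ˢ Icc 0 (2 * Real.pi) with hK
  have hKc : IsCompact K := isCompact_Icc.prod isCompact_Icc
  have hKne : K.Nonempty := ⟨(0, 0), ⟨⟨by linarith, by linarith⟩, ⟨le_refl _, hpi.le⟩⟩⟩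
  -- choose the exponent
  obtain ⟨m, hm⟩ : ∃ m : ℝ, ∀ p ∈ K, m ≤ c1 p / b22 p := by
    have hcont : ContinuousOn (fun p => c1 p / b22 p) K :=
      (hc1.div hb22c (fun p => (hb22 p).ne')).continuousOn
    obtain ⟨q, hq, hq2⟩ := hKc.exists_isMinOn hKne hcont
    exact ⟨_, fun p hp => hq2 hp⟩
  set l := |m| + 1 with hl
  have hlpos : 0 < l := by positivity
  have hkey : ∀ p ∈ K, 0 < c1 p + b22 p * l := by
    intro p hp
    have h1 := hm p hp
    have h2 : m * b22 p ≤ c1 p := by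
      rwa [le_div_iff₀ (hb22 p)] at h1
    have h3 : 0 < b22 p * (m + l) := mul_pos (hb22 p) (by rw [hl]; linarith [neg_abs_le m])
    nlinarith
  set δ := ε * Real.exp (-(l * T)) with hδ
  have hδpos : 0 < δ := by positivity
  set G : ℝ × ℝ → ℝ := fun p => f p + δ * Real.exp (l * p.1) with hG
  have hexpC : ContDiff ℝ 2 (fun p : ℝ × ℝ => Real.exp (l * p.1)) := by fun_prop
  have hGC : ContDiff ℝ 2 G := hf.add (contDiff_const.mul hexpC)
  obtain ⟨p0, hp0, hp0max⟩ := hKc.exists_isMaxOn hKne hGC.continuous.continuousOn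
  have hglob : ∀ p : ℝ × ℝ, |p.1| ≤ T → G p ≤ G p0 := by
    intro p hp
    have hperG : Function.Periodic (fun θ => G (p.1, θ)) (2 * Real.pi) := by
      intro θ
      simp only [hG]
      rw [hper]
    obtain ⟨y, hy, hy2⟩ := hperG.exists_mem_Ico₀ hpi p.2
    have h1 : G p = G (p.1, y) := hy2
    rw [h1]
    apply hp0max
    exact ⟨abs_le.1 hp, ⟨hy.1, hy.2.le⟩⟩
  have hGp1 : f p1 < G p1 := by
    simp only [hG]
    have : 0 < δ * Real.exp (l * p1.1) := by positivity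
    linarith
  have hin : |p0.1| < T := by
    by_contra hge
    push Not at hge
    have hle : |p0.1| ≤ T := abs_le.2 hp0.1
    have h1 := hT0 p0.1 p0.2 (hTT0.trans hge)
    have h2 : G p0 < c0 + ε + ε := by
      simp only [hG]
      have h3 : δ * Real.exp (l * p0.1) ≤ ε := by
        rw [hδ, mul_assoc, ← Real.exp_add]
        have h4 : Real.exp (-(l * T) + l * p0.1) ≤ 1 := by
          rw [Real.exp_le_one_iff]
          have : l * p0.1 ≤ l * T := mul_le_mul_of_nonneg_left ((le_abs_self _).trans hle) hlpos.le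
          linarith
        nlinarith
      linarith
    have h5 := hglob p1 hTp.le
    have h6 : c0 + ε + ε = f p1 := by rw [hε]; ring
    linarith
  have hloc : IsLocalMax G p0 := by
    have hopen : IsOpen {p : ℝ × ℝ | |p.1| < T} := isOpen_lt (by fun_prop) continuous_const
    filter_upwards [hopen.mem_nhds hin] with p hp
    exact hglob p (le_of_lt hp)
  have hfd : Differentiable ℝ f := hf.differentiable (by norm_num)
  have hed : Differentiable ℝ (fun p : ℝ × ℝ => Real.exp (l * p.1)) :=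
    hexpC.differentiable (by norm_num)
  have hpt : pt G = fun p => pt f p + δ * (l * Real.exp (l * p.1)) := by
    funext p
    rw [hG, pt_add_mul hfd hed, pt_exp]
  have hph : ph G = ph f := by
    funext p
    rw [hG, ph_add_mul hfd hed, ph_exp]
    ring
  have hpfd : Differentiable ℝ (pt f) :=
    (contDiff_pt (m := 1) hf (by norm_num)).differentiable (by norm_num)
  have hpt2 : pt (pt G) p0 = pt (pt f) p0 + δ * l * (l * Real.exp (l * p0.1)) := by
    have : pt G = fun p => pt f p + (δ * l) * Real.exp (l * p.1) := by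
      rw [hpt]; funext p; ring
    rw [this, pt_add_mul hpfd hed, pt_exp]
  have hphpt : ph (pt G) p0 = ph (pt f) p0 := by
    have : pt G = fun p => pt f p + (δ * l) * Real.exp (l * p.1) := by
      rw [hpt]; funext p; ring
    rw [this, ph_add_mul hpfd hed, ph_exp]
    ring
  have hz : fderiv ℝ G p0 = 0 := hloc.fderiv_eq_zero
  have hz1 : pt f p0 + δ * (l * Real.exp (l * p0.1)) = 0 := by
    have h1 : pt G p0 = 0 := by unfold pt; rw [hz]; simp
    rw [hpt] at h1
    exact h1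
  have hz2 : ph f p0 = 0 := by
    have h1 : ph G p0 = 0 := by unfold ph; rw [hz]; simp
    rw [hph] at h1
    exact h1
  have hquad := quad_at_max hGC hloc (hb11 p0) (hdet p0)
  rw [hpt2, hphpt, hph] at hquad
  have he := heq p0
  rw [hz2] at he
  have hf1 : pt f p0 = - (δ * (l * Real.exp (l * p0.1))) := by linarith
  rw [hf1] at he
  have hpos : 0 < δ * (l * Real.exp (l * p0.1)) * (c1 p0 + b22 p0 * l) :=
    mul_pos (by positivity) (hkey p0 hp0)
  nlinarith

end Pool.Agent.H497.Plane
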