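import Pool.Agent.H497.Chart

open Set Filter Topology

namespace Pool.Agent.H497.Plane

section neg
variable {g : E3 → ℝ}

lemma fderiv_neg_arg (g : E3 → ℝ) (x : E3) :
    fderiv ℝ (fun x => g (-x)) x = - fderiv ℝ g (-x) := by
  by_cases hd : DifferentiableAt ℝ g (-x)
  · have h1 := (hd.hasFDerivAt.comp x (hasFDerivAt_id x).neg).fderiv
    have h2 : g ∘ (Neg.neg : E3 → E3) = fun x => g (-x) := rfl
    rw [h2] at h1
    rw [h1]
    ext v
    simp
  · have h3 : ¬ DifferentiableAt ℝ (fun x => g (-x)) x := by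
      intro h
      apply hd
      have h5 : DifferentiableAt ℝ (fun x => g (-x)) (-(-x)) := by rw [neg_neg]; exact h
      have h4 := h5.comp (-x) (differentiableAt_id.neg)
      have h6 : (fun x => g (-x)) ∘ (Neg.neg : E3 → E3) = g := by
        funext y; simp
      rw [h6] at h4
      exact h4
    rw [fderiv_zero_of_not_differentiableAt h3, fderiv_zero_of_not_differentiableAt hd, neg_zero]

lemma fderiv2_neg_arg (hs : ∀ x, x ≠ 0 → ContDiffAt ℝ 3 g x) {x : E3} (hx : x ≠ 0) :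
    fderiv ℝ (fderiv ℝ (fun x => g (-x))) x = fderiv ℝ (fderiv ℝ g) (-x) := by
  have h0 : fderiv ℝ (fun x => g (-x)) = fun x => - fderiv ℝ g (-x) :=
    funext (fderiv_neg_arg g)
  rw [h0]
  have hd : HasFDerivAt (fderiv ℝ g) (fderiv ℝ (fderiv ℝ g) (-x)) (-x) :=
    (diffAt_fderiv hs (neg_ne_zero.2 hx)).hasFDerivAt
  have h1 := (hd.comp x (hasFDerivAt_id x).neg).neg
  have h2 := h1.fderiv
  have h3 : (-(fderiv ℝ g ∘ (Neg.neg : E3 → E3)) : E3 → E3 →L[ℝ] ℝ) =
    fun x => - fderiv ℝ g (-x) := rfl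
  rw [h3] at h2
  rw [h2]
  ext v w
  simp

lemma rad_neg (hs : ∀ x, x ≠ 0 → ContDiffAt ℝ 3 g x) {u : E3} (hu : u ≠ 0) :
    rad (fun x => g (-x)) u = rad g (-u) := by
  unfold rad
  rw [fderiv2_neg_arg hs hu]
  congr 1
  ext i j
  simp

lemma Good.neg (hg : Good g) : Good (fun x => g (-x)) where
  smooth := by
    intro x hx
    exact (hg.smooth (-x) (neg_ne_zero.2 hx)).comp x contDiffAt_id.neg
  homog := by
    intro t ht x
    show g (-(t • x)) = t * g (-x)
    rw [← smul_neg]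
    exact hg.homog t ht (-x)
  conv := by
    refine ⟨convex_univ, ?_⟩
    intro x _ y _ α β hα hβ hαβ
    have := hg.conv.2 (mem_univ (-x)) (mem_univ (-y)) hα hβ hαβ
    have e : α • (-x) + β • (-y) = -(α • x + β • y) := by module
    rwa [e] at this
  pos := by
    intro u hu
    have hu0 : u ≠ 0 := by
      intro h; rw [h] at hu; simp at hu
    rw [rad_neg hg.smooth hu0]
    exact hg.pos _ (by rw [norm_neg]; exact hu)

end neg

/-- the difference of gradients in the direction `e` -/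
noncomputable def Fd (g1 g2 : E3 → ℝ) (e x : E3) : ℝ := fderiv ℝ g1 x e - fderiv ℝ g2 x e

section
variable {g1 g2 : E3 → ℝ} (h1 : Good g1) (h2 : Good g2)
  (hw : ∀ x, g1 x + g1 (-x) = g2 x + g2 (-x))
include h1 h2

lemma Fd_smul (e : E3) {t : ℝ} (ht : 0 < t) {x : E3} (hx : x ≠ 0) :
    Fd g1 g2 e (t • x) = Fd g1 g2 e x := by
  unfold Fd
  rw [fderiv_smul_pt h1.smooth h1.homog ht hx, fderiv_smul_pt h2.smooth h2.homog ht hx]

lemma Fd_cont (e : E3) {x : E3} (hx : x ≠ 0) : ContinuousAt (Fd g1 g2 e) x := by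
  unfold Fd
  have c1 : ContinuousAt (fun x => fderiv ℝ g1 x e) x :=
    (diffAt_fderiv h1.smooth hx).continuousAt.clm_apply continuousAt_const
  have c2 : ContinuousAt (fun x => fderiv ℝ g2 x e) x :=
    (diffAt_fderiv h2.smooth hx).continuousAt.clm_apply continuousAt_const
  exact c1.sub c2

include hw

lemma Fd_neg (e : E3) {x : E3} (hx : x ≠ 0) : Fd g1 g2 e (-x) = Fd g1 g2 e x := by
  unfold Fd
  have hx' : -x ≠ 0 := neg_ne_zero.2 hx
  have a1 : HasFDerivAt (fun x => g1 x + g1 (-x)) (fderiv ℝ g1 x + - fderiv ℝ g1 (-x)) x := by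
    have := (diffAt h1.neg.smooth hx).hasFDerivAt
    rw [fderiv_neg_arg] at this
    exact (diffAt h1.smooth hx).hasFDerivAt.add this
  have a2 : HasFDerivAt (fun x => g2 x + g2 (-x)) (fderiv ℝ g2 x + - fderiv ℝ g2 (-x)) x := by
    have := (diffAt h2.neg.smooth hx).hasFDerivAt
    rw [fderiv_neg_arg] at this
    exact (diffAt h2.smooth hx).hasFDerivAt.add this
  have e0 : (fun x => g1 x + g1 (-x)) = fun x => g2 x + g2 (-x) := funext hw
  rw [e0] at a1
  have h3 := congrArg (fun L : E3 →L[ℝ] ℝ => L e) (a1.unique a2)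
  simp at h3
  linarith

lemma Fd_lim {e a b : E3} (ho : ON e a b) (ε : ℝ) (hε : 0 < ε) :
    ∃ T : ℝ, ∀ τ θ, T ≤ |τ| → |Fd g1 g2 e (Xv e a b (τ, θ)) - Fd g1 g2 e e| < ε := by
  have he0 : e ≠ 0 := by
    intro h
    have := ho.ee
    rw [h] at this
    simp at this
  obtain ⟨d, hd, hd2⟩ := Metric.continuousAt_iff.1 (Fd_cont h1 h2 e he0) ε hε
  have hYn : ∀ θ, ‖Yv a b θ‖ = 1 := by
    intro θ
    have := YY ho θ
    rw [real_inner_self_eq_norm_sq] at this
    have hn := norm_nonneg (Yv a b θ)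
    nlinarith
  refine ⟨2 / d, ?_⟩
  intro τ θ hτ
  have hdpos : 0 < 2 / d := by positivity
  have hτ0 : 0 < |τ| := lt_of_lt_of_le hdpos hτ
  have hsmall : |τ|⁻¹ < d := by
    have : 2 ≤ |τ| * d := by
      rw [div_le_iff₀ hd] at hτ
      exact hτ
    rw [inv_lt_iff_one_lt_mul₀ hτ0]
    linarith
  have hX0 : Xv e a b (τ, θ) ≠ 0 := X_ne ho _
  rcases lt_or_gt_of_ne (abs_pos.1 hτ0) with hneg | hpos
  · have e1 : Fd g1 g2 e (Xv e a b (τ, θ)) = Fd g1 g2 e (|τ|⁻¹ • (-(Xv e a b (τ, θ)))) := by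
      rw [Fd_smul h1 h2 e (inv_pos.2 hτ0) (neg_ne_zero.2 hX0), Fd_neg h1 h2 hw e hX0]
    rw [e1]
    have e2 : |τ|⁻¹ • (-(Xv e a b (τ, θ))) = e - |τ|⁻¹ • Yv a b θ := by
      unfold Xv
      simp only [neg_add, smul_add, smul_neg, smul_smul]
      have : |τ|⁻¹ * τ = -1 := by
        rw [abs_of_neg hneg, inv_neg, neg_mul, inv_mul_cancel₀ hneg.ne]
      rw [this]
      module
    have h3 := @hd2 (|τ|⁻¹ • (-(Xv e a b (τ, θ)))) (by
      rw [e2, dist_eq_norm]
      have : e - |τ|⁻¹ • Yv a b θ - e = -(|τ|⁻¹ • Yv a b θ) := by abel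
      rw [this, norm_neg, norm_smul, hYn, Real.norm_eq_abs, abs_of_pos (inv_pos.2 hτ0)]
      simpa using hsmall)
    rwa [Real.dist_eq] at h3
  · have e1 : Fd g1 g2 e (Xv e a b (τ, θ)) = Fd g1 g2 e (|τ|⁻¹ • (Xv e a b (τ, θ))) := by
      rw [Fd_smul h1 h2 e (inv_pos.2 hτ0) hX0]
    rw [e1]
    have e2 : |τ|⁻¹ • (Xv e a b (τ, θ)) = e + |τ|⁻¹ • Yv a b θ := by
      unfold Xv
      simp only [smul_add, smul_smul]
      have : |τ|⁻¹ * τ = 1 := by
        rw [abs_of_pos hpos]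
        field_simp
      rw [this, one_smul]
    have h3 := @hd2 (|τ|⁻¹ • (Xv e a b (τ, θ))) (by
      rw [e2, dist_eq_norm]
      have : e + |τ|⁻¹ • Yv a b θ - e = (|τ|⁻¹ • Yv a b θ) := by abel
      rw [this, norm_smul, hYn, Real.norm_eq_abs, abs_of_pos (inv_pos.2 hτ0)]
      simpa using hsmall)
    rwa [Real.dist_eq] at h3

lemma Fd_le (hr : ∀ u, ‖u‖ = 1 → rad g1 (-u) * rad g2 u = rad g2 (-u) * rad g1 u)
    {e a b : E3} (ho : ON e a b) (p : ℝ × ℝ) :
    Fd g1 g2 e (Xv e a b p) ≤ Fd g1 g2 e e := by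
  have hpt : ∀ p, pt (fun p => g1 (Xv e a b p) - g2 (Xv e a b p)) p =
      Fd g1 g2 e (Xv e a b p) := by
    intro p
    rw [pt_sub (((contDiff_chart h1.smooth ho).differentiable (by norm_num)) p)
      (((contDiff_chart h2.smooth ho).differentiable (by norm_num)) p),
      pt_chart h1.smooth ho, pt_chart h2.smooth ho]
    rfl
  rw [← hpt]
  refine core (a1 := fun p => g1 (Xv e a b p)) (b1 := fun p => g1 (-(Xv e a b p)))
    (a2 := fun p => g2 (Xv e a b p)) (b2 := fun p => g2 (-(Xv e a b p)))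
    (contDiff_chart h1.smooth ho) (contDiff_chart h1.neg.smooth ho)
    (contDiff_chart h2.smooth ho) (contDiff_chart h2.neg.smooth ho)
    (Pn_pos h1 ho) (Pn_pos h1.neg ho) (Pn_pos h2 ho) (Pn_pos h2.neg ho)
    (dn_pos h1 ho) (dn_pos h1.neg ho) (dn_pos h2 ho) (dn_pos h2.neg ho)
    (fun p => hw _) ?_ ?_ _ ?_ p
  · intro p
    set u := (Real.sqrt (1 + p.1 ^ 2))⁻¹ • Xv e a b p with hu
    have hun : ‖u‖ = 1 := norm_u ho p
    have hu0 : u ≠ 0 := by
      intro h; rw [h] at hun; simp at hun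
    have k1 : rad g1 u = (1 + p.1 ^ 2) ^ 2 * dn (fun p => g1 (Xv e a b p)) p :=
      dn_chart h1.smooth h1.homog ho p
    have k2 : rad g2 u = (1 + p.1 ^ 2) ^ 2 * dn (fun p => g2 (Xv e a b p)) p :=
      dn_chart h2.smooth h2.homog ho p
    have k3 : rad g1 (-u) = (1 + p.1 ^ 2) ^ 2 * dn (fun p => g1 (-(Xv e a b p))) p := by
      rw [← rad_neg h1.smooth hu0]
      exact dn_chart h1.neg.smooth h1.neg.homog ho p
    have k4 : rad g2 (-u) = (1 + p.1 ^ 2) ^ 2 * dn (fun p => g2 (-(Xv e a b p))) p := by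
      rw [← rad_neg h2.smooth hu0]
      exact dn_chart h2.neg.smooth h2.neg.homog ho p
    have h := hr u hun
    rw [k1, k2, k3, k4] at h
    have hpos : (0:ℝ) < (1 + p.1 ^ 2) ^ 2 * (1 + p.1 ^ 2) ^ 2 := by positivity
    apply mul_left_cancel₀ hpos.ne'
    linear_combination h
  · intro τ θ
    rw [hpt, hpt]
    have : Xv e a b (τ, θ + 2 * Real.pi) = Xv e a b (τ, θ) := by
      unfold Xv Yv
      simp
    rw [this]
  · intro ε hε
    obtain ⟨T, hT⟩ := Fd_lim h1 h2 hw ho ε hε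
    refine ⟨T, ?_⟩
    intro τ θ hτ
    rw [hpt]
    have := (abs_lt.1 (hT τ θ hτ)).2
    linarith

lemma Fd_eq (hr : ∀ u, ‖u‖ = 1 → rad g1 (-u) * rad g2 u = rad g2 (-u) * rad g1 u)
    {e a b : E3} (ho : ON e a b) (p : ℝ × ℝ) :
    Fd g1 g2 e (Xv e a b p) = Fd g1 g2 e e := by
  apply le_antisymm (Fd_le h1 h2 hw hr ho p)
  have h3 := Fd_le h2 h1 (fun x => (hw x).symm) (fun u hu => (hr u hu).symm) ho p
  have e1 : ∀ x, Fd g2 g1 e x = - Fd g1 g2 e x := by
    intro x; unfold Fd; ring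
  rw [e1, e1] at h3
  linarith

lemma Fd_const (hr : ∀ u, ‖u‖ = 1 → rad g1 (-u) * rad g2 u = rad g2 (-u) * rad g1 u)
    {e a b : E3} (ho : ON e a b) {x : E3} (hx : x ≠ 0) {α β γ : ℝ}
    (hxx : x = α • e + β • a + γ • b) :
    Fd g1 g2 e x = Fd g1 g2 e e := by
  have he0 : e ≠ 0 := by
    intro h
    have := ho.ee
    rw [h] at this
    simp at this
  by_cases hbg : β = 0 ∧ γ = 0
  · obtain ⟨hb, hg⟩ := hbg
    have hxe : x = α • e := by rw [hxx, hb, hg]; simp
    have hα : α ≠ 0 := by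
      intro h; apply hx; rw [hxe, h]; simp
    rcases lt_or_gt_of_ne hα with hneg | hpos
    · have : x = -((-α) • e) := by rw [hxe]; simp
      rw [this, Fd_neg h1 h2 hw e (smul_ne_zero (by linarith) he0),
        Fd_smul h1 h2 e (by linarith) he0]
    · rw [hxe, Fd_smul h1 h2 e hpos he0]
  · set z : ℂ := ⟨β, γ⟩ with hz
    have hz0 : z ≠ 0 := by
      intro h
      apply hbg
      have h3 := congrArg Complex.re h
      have h4 := congrArg Complex.im h
      simp [hz] at h3 h4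
      exact ⟨h3, h4⟩
    have hρ : 0 < ‖z‖ := norm_pos_iff.2 hz0
    set θ := Complex.arg z with hθ
    have hc : Real.cos θ = β / ‖z‖ := by rw [hθ, Complex.cos_arg hz0]
    have hs : Real.sin θ = γ / ‖z‖ := by rw [hθ, Complex.sin_arg]
    have hX : x = ‖z‖ • Xv e a b (α / ‖z‖, θ) := by
      rw [hxx]
      unfold Xv Yv
      rw [hc, hs]
      simp only [smul_add, smul_smul]
      have e1 : ‖z‖ * (α / ‖z‖) = α := by field_simp
      have e2 : ‖z‖ * (β / ‖z‖) = β := by field_simp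
      have e3 : ‖z‖ * (γ / ‖z‖) = γ := by field_simp
      rw [e1, e2, e3]
      abel
    rw [hX, Fd_smul h1 h2 e hρ (X_ne ho _), Fd_eq h1 h2 hw hr ho]

end

/-- the function level statement -/
theorem rigid {g1 g2 : E3 → ℝ} (h1 : Good g1) (h2 : Good g2)
    (hw : ∀ x, g1 x + g1 (-x) = g2 x + g2 (-x))
    (hr : ∀ u, ‖u‖ = 1 → rad g1 (-u) * rad g2 u = rad g2 (-u) * rad g1 u) :
    ∃ c : E3, ∀ x, g1 x = g2 x + inner ℝ c x := by
  set e0 : E3 := EuclideanSpace.single 0 1 with he0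
  set e1 : E3 := EuclideanSpace.single 1 1 with he1
  set e2 : E3 := EuclideanSpace.single 2 1 with he2
  have hx : ∀ x : E3, x = x 0 • e0 + x 1 • e1 + x 2 • e2 := by
    intro x
    ext i
    fin_cases i <;> simp [he0, he1, he2]
  have i00 : inner ℝ e0 e0 = (1:ℝ) := by simp [he0]
  have i11 : inner ℝ e1 e1 = (1:ℝ) := by simp [he1]
  have i22 : inner ℝ e2 e2 = (1:ℝ) := by simp [he2]
  have i01 : inner ℝ e0 e1 = (0:ℝ) := by
    simp [he0, he1, EuclideanSpace.inner_single_left]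
  have i02 : inner ℝ e0 e2 = (0:ℝ) := by
    simp [he0, he2, EuclideanSpace.inner_single_left]
  have i12 : inner ℝ e1 e2 = (0:ℝ) := by
    simp [he1, he2, EuclideanSpace.inner_single_left]
  have i10 : inner ℝ e1 e0 = (0:ℝ) := by rw [real_inner_comm]; exact i01
  have i20 : inner ℝ e2 e0 = (0:ℝ) := by rw [real_inner_comm]; exact i02
  have i21 : inner ℝ e2 e1 = (0:ℝ) := by rw [real_inner_comm]; exact i12
  have o0 : ON e0 e1 e2 := ⟨i00, i11, i22, i01, i02, i12⟩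
  have o1 : ON e1 e2 e0 := ⟨i11, i22, i00, i12, i10, i20⟩
  have o2 : ON e2 e0 e1 := ⟨i22, i00, i11, i20, i21, i01⟩
  have c0 : ∀ x : E3, x ≠ 0 → Fd g1 g2 e0 x = Fd g1 g2 e0 e0 := fun x h =>
    Fd_const h1 h2 hw hr o0 h (hx x)
  have c1 : ∀ x : E3, x ≠ 0 → Fd g1 g2 e1 x = Fd g1 g2 e1 e1 := fun x h =>
    Fd_const h1 h2 hw hr o1 h (α := x 1) (β := x 2) (γ := x 0)
      (by conv_lhs => rw [hx x]
          abel)
  have c2 : ∀ x : E3, x ≠ 0 → Fd g1 g2 e2 x = Fd g1 g2 e2 e2 := fun x h =>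
    Fd_const h1 h2 hw hr o2 h (α := x 2) (β := x 0) (γ := x 1)
      (by conv_lhs => rw [hx x]
          abel)
  refine ⟨Fd g1 g2 e0 e0 • e0 + Fd g1 g2 e1 e1 • e1 + Fd g1 g2 e2 e2 • e2, ?_⟩
  intro x
  by_cases hx0 : x = 0
  · have z1 : ∀ {g : E3 → ℝ}, Good g → g 0 = 0 := by
      intro g hg
      have := hg.homog 2 (by norm_num) 0
      rw [smul_zero] at this
      linarith
    rw [hx0, z1 h1, z1 h2]
    simp
  · have E1 := euler h1.smooth h1.homog hx0
    have E2 := euler h2.smooth h2.homog hx0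
    have k : ∀ g : E3 → ℝ, fderiv ℝ g x x = x 0 * fderiv ℝ g x e0 + x 1 * fderiv ℝ g x e1 +
        x 2 * fderiv ℝ g x e2 := by
      intro g
      conv_lhs => arg 2; rw [hx x]
      simp
    have d0 := c0 x hx0
    have d1 := c1 x hx0
    have d2 := c2 x hx0
    have j0 : inner ℝ e0 x = x 0 := by simp [he0, EuclideanSpace.inner_single_left]
    have j1 : inner ℝ e1 x = x 1 := by simp [he1, EuclideanSpace.inner_single_left]
    have j2 : inner ℝ e2 x = x 2 := by simp [he2, EuclideanSpace.inner_single_left]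
    simp only [inner_add_left, inner_smul_left, j0, j1, j2]
    rw [← d0, ← d1, ← d2, ← E1, ← E2, k g1, k g2]
    unfold Fd
    simp
    ring

end Pool.Agent.H497.Plane
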